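import Pool.Agent.Cells.A00.K
import Pool.Agent.Cells.A00.M
import Pool.Agent.Helper70.SH.CellK

set_option autoImplicit false
set_option maxRecDepth 100000

namespace Pool.Agent.Cells.A00

open Helper49.Cell
open Helper54.RC.Fast (FP PF)
open Helper95.SH (CD nt pV rV sV)
open Helper42.SH (LBB Pieces)
open Helper43.CL (LB)
open Helper25.SH.Mat (Blk)
open Pool.Agent.Helper75.SH (WtR okW)
open Pool.Agent.Helper56.TS (TI)

section
/-! ## The cell (helper70). Needs: ht (75), B E of allb (25), s_M h_E of chol (25, 60, 49), f_lam (44), all f_NN, and of the part dg: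
Pd Dd E_dg f_PT f_FR f_dg -/

theorem pcs (H0 : Helper70.SH.LocH) : Helper42.SH.Pieces D T.K H W.k1 13 14 W.alf T.tsc.tz
    (T.tsc.t2 - Pool.Agent.Helper75.SH.x2 T.tsc D ((W.bL : ℝ) / 1000))
    (T.tsc.t3 - Pool.Agent.Helper75.SH.x3 T.tsc D ((W.bL : ℝ) / 1000)) bM n S B (fun i => ((E i : ℕ) : ℝ)) where
  nf := f_nf
  o1 := f_o1
  pr := f_pr
  lin := f_lin H0
  lo := f_lo
  bp := f_bp
  br := f_br
  zp := f_zp
  zr := f_zr
  q := f_q
  x := f_x H0
  y := f_y H0
  z := f_z H0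
  d2 := f_d2

theorem cell (H0 : Helper70.SH.LocH) : Helper56.SH.Cell (Pool.Agent.Helper15.SH.q15m (R.q, [1])) :=
  Helper70.SH.cell_all k_rec len k_mul k_cs H0 (ht H0) (Hh := H) rfl (by decide) (by decide) f_PT (f_FR H0) (by positivity)
    (pcs H0) f_dg s_M h_E (f_lam _)

end

end Pool.Agent.Cells.A00
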